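import Pool.Agent.helper87.AU.SpecQ1

/-!
# au:QD3: powers of a local generator, discriminants
-/

namespace Pool.Agent.helper53.AU

open scoped Classical IntermediateField
open Polynomial (aeval)

noncomputable section

variable {k F : Type} [Field k] [Field F] [Algebra k F]

/-- order of `α - r` when `α - c` is a uniformiser -/
theorem QD3_lin (P : Place k F) (α : F) (c r : k) (h : P.Unif (α - algebraMap k F c)) :
    α - algebraMap k F r ≠ 0 ∧ P.ord (α - algebraMap k F r) = if r = c then 1 else 0 := by
  by_cases hr : r = c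
  · subst hr
    simpa using ⟨h.1, h.2⟩
  · have hc : c - r ≠ 0 := sub_ne_zero.mpr (Ne.symm hr)
    have hc' : algebraMap k F (c - r) ≠ 0 := by
      rwa [Ne, map_eq_zero]
    have ho : P.ord (algebraMap k F (c - r)) = 0 := P.ord_const _ hc
    have h1 : P.Ge (P.ord (algebraMap k F (c - r)) + 1) (α - algebraMap k F c) := by
      right
      rw [ho, h.2]
      simp
    have h2 := Place.ord_add_eq hc' h1
    have e : algebraMap k F (c - r) + (α - algebraMap k F c) = α - algebraMap k F r := by
      rw [map_sub]; ring
    rw [e, ho] at h2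
    rw [if_neg hr]
    exact h2

theorem QD3_prod (P : Place k F) (α : F) (c : k) (h : P.Unif (α - algebraMap k F c))
    (m : Multiset k) :
    (m.map fun r => α - algebraMap k F r).prod ≠ 0 ∧
      P.ord (m.map fun r => α - algebraMap k F r).prod = m.count c := by
  induction m using Multiset.induction_on with
  | empty => simp [P.ord_one]
  | cons r m ih =>
    obtain ⟨h1, h2⟩ := QD3_lin P α c r h
    rw [Multiset.map_cons, Multiset.prod_cons]
    refine ⟨mul_ne_zero h1 ih.1, ?_⟩
    rw [P.ord_mul _ _ h1 ih.1, h2, ih.2, Multiset.count_cons]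
    by_cases hr : r = c
    · subst hr
      simp
      ring
    · rw [if_neg hr, if_neg (Ne.symm hr)]
      simp

/-- order of a polynomial in `α` -/
theorem QD3_poly [IsAlgClosed k] (P : Place k F) (α : F) (c : k)
    (h : P.Unif (α - algebraMap k F c)) (G : Polynomial k) (hG : G ≠ 0) :
    aeval α G ≠ 0 ∧ P.ord (aeval α G) = G.roots.count c := by
  have e1 : G = Polynomial.C G.leadingCoeff * (G.roots.map fun r => Polynomial.X - Polynomial.C r).prod :=
    (IsAlgClosed.splits G).eq_prod_roots
  have e : aeval α G = algebraMap k F G.leadingCoeff *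
      (G.roots.map fun r => α - algebraMap k F r).prod := by
    conv_lhs => rw [e1]
    rw [map_mul, Polynomial.aeval_C, map_multiset_prod, Multiset.map_map]
    congr 3
    ext r
    simp
  have hl : G.leadingCoeff ≠ 0 := Polynomial.leadingCoeff_ne_zero.mpr hG
  have hl' : algebraMap k F G.leadingCoeff ≠ 0 := by rwa [Ne, map_eq_zero]
  obtain ⟨h1, h2⟩ := QD3_prod P α c h G.roots
  rw [e]
  refine ⟨mul_ne_zero hl' h1, ?_⟩
  rw [P.ord_mul _ _ hl' h1, P.ord_const _ hl, h2, zero_add]

omit [Field k] in
theorem QD3_count (m : Multiset k) (T : Finset k) : ∑ c ∈ T, m.count c ≤ Multiset.card m := by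
  have h := Multiset.sum_count_eq_card (s := T ∪ m.toFinset) (m := m) (by
    intro a ha
    simp [ha])
  rw [← h]
  exact Finset.sum_le_sum_of_subset Finset.subset_union_left

theorem QD3_field (x : F) (a : k) : k⟮x - algebraMap k F a⟯ = k⟮x⟯ := by
  apply le_antisymm
  · rw [IntermediateField.adjoin_simple_le_iff]
    exact sub_mem (IntermediateField.mem_adjoin_simple_self k x) (algebraMap_mem _ a)
  · rw [IntermediateField.adjoin_simple_le_iff]
    have h := add_mem (IntermediateField.mem_adjoin_simple_self k (x - algebraMap k F a))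
      (algebraMap_mem k⟮x - algebraMap k F a⟯ a)
    simpa using h

theorem QD3_deg (x : F) (a : k) : degx k (x - algebraMap k F a) = degx k x := by
  unfold degx
  rw [QD3_field]

theorem QD3 (h4 : QV4_stmt) (hZ : QZ3_stmt) (hD0 : QD0_stmt) : QD3_stmt := by
  intro k F _ _ _ _ hFF P₀ x n u μ hP a α c hα hunif hinj
  obtain ⟨hT, hdeg, hlin, -⟩ := hD0 k F hFF P₀ x n u μ hP
  set z : F := x - algebraMap k F a with hz
  have hTz : Transcendental k z := by
    intro h
    apply hT
    have := h.add (isAlgebraic_algebraMap (R := k) (A := F) a)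
    simpa [hz] using this
  have hz0 : z ≠ 0 := by
    intro h
    apply hTz
    rw [h]
    exact isAlgebraic_zero
  -- the places above `a` are different from `P₀`
  have hx0 : x ≠ 0 := by
    intro h
    have := hP.xord
    apply hT
    rw [h]
    exact isAlgebraic_zero
  have hP₀z : P₀.ord z = -(n : ℤ) := by
    have h1 : P₀.Ge (P₀.ord x + 1) (-algebraMap k F a) := by
      refine (P₀.ge_const a).neg.mono ?_
      rw [hP.xord]
      have := hP.pos
      omega
    have h2 := Place.ord_add_eq hx0 h1
    rw [← sub_eq_add_neg, ← hz, hP.xord] at h2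
    exact h2.2
  have hne : ∀ P : Place k F, 0 < P.ord z → P ≠ P₀ := by
    rintro P h rfl
    rw [hP₀z] at h
    omega
  -- the matrix of the powers
  have hpow : ∀ j : Fin n, ∃ φ : Fin n → Polynomial k,
      α ^ (j : ℕ) = ∑ i, aeval x (φ i) * u i := fun j => hP.span _ (pow_mem hα _)
  choose φ hφ using hpow
  set V : Matrix (Fin n) (Fin n) (Polynomial k) := Matrix.of fun i j => φ j i with hV
  have hVα : ∀ j : Fin n, α ^ (j : ℕ) = ∑ i, aeval x (V i j) * u i := hφ
  have hdet : V.det.eval a ≠ 0 := by
    intro h0
    have h1 : (V.map (Polynomial.evalRingHom a)).det = 0 := by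
      have := RingHom.map_det (Polynomial.evalRingHom a) V
      rw [Polynomial.coe_evalRingHom] at this
      rw [← h0, this]
      rfl
    obtain ⟨g, hg0, hg⟩ := Matrix.exists_mulVec_eq_zero_iff.mpr h1
    -- the polynomial `G`
    set G : Polynomial k := ∑ j : Fin n, Polynomial.C (g j) * Polynomial.X ^ (j : ℕ) with hG
    have hcoeff : ∀ j : Fin n, G.coeff (j : ℕ) = g j := by
      intro j
      rw [hG, Polynomial.finsetSum_coeff]
      simp only [Polynomial.coeff_C_mul, Polynomial.coeff_X_pow]
      rw [Finset.sum_eq_single j]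
      · simp
      · intro b _ hb
        rw [if_neg (fun h => hb (Fin.ext h.symm)), mul_zero]
      · simp
    have hGne : G ≠ 0 := by
      intro h
      apply hg0
      funext j
      rw [← hcoeff j, h, Polynomial.coeff_zero]
      rfl
    have hGdeg : G.natDegree < n := by
      have hn := hP.pos
      rw [Polynomial.natDegree_lt_iff_degree_lt hGne]
      refine (Polynomial.degree_sum_le _ _).trans_lt ?_
      rw [Finset.sup_lt_iff (by simp)]
      intro j _
      refine (Polynomial.degree_C_mul_X_pow_le _ _).trans_lt ?_
      exact_mod_cast j.2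
    -- divisibility
    have hq : ∀ i : Fin n, ∃ q : Polynomial k,
        ∑ j, V i j * Polynomial.C (g j) = (Polynomial.X - Polynomial.C a) * q := by
      intro i
      rw [← dvd_def, Polynomial.dvd_iff_isRoot, Polynomial.IsRoot, Polynomial.eval_finsetSum]
      have := congrFun hg i
      simp only [Matrix.mulVec, dotProduct, Matrix.map_apply, Polynomial.coe_evalRingHom,
        Pi.zero_apply] at this
      simpa using this
    choose q hq using hq
    have hGα : aeval α G = z * ∑ i, aeval x (q i) * u i := by
      rw [hG, map_sum, Finset.mul_sum]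
      have e1 : ∀ j : Fin n, aeval α (Polynomial.C (g j) * Polynomial.X ^ (j : ℕ)) =
          ∑ i, aeval x (V i j * Polynomial.C (g j)) * u i := by
        intro j
        rw [map_mul, Polynomial.aeval_C, map_pow, Polynomial.aeval_X, hVα j, Finset.mul_sum]
        refine Finset.sum_congr rfl fun i _ => ?_
        rw [map_mul, Polynomial.aeval_C]
        ring
      rw [Finset.sum_congr rfl fun j _ => e1 j, Finset.sum_comm]
      refine Finset.sum_congr rfl fun i _ => ?_
      rw [← Finset.sum_mul, ← map_sum, hq i, map_mul, map_sub, Polynomial.aeval_X,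
        Polynomial.aeval_C, ← hz]
      ring
    have hreg : (∑ i, aeval x (q i) * u i) ∈ Reg P₀ := by
      refine sum_mem fun i _ => mul_mem ?_ (hP.reg i)
      have : aeval x (q i) = ((aeval (⟨x, hP.xreg⟩ : Reg P₀) (q i) : Reg P₀) : F) :=
        (Polynomial.aeval_subalgebra_coe (q i) (Reg P₀) ⟨x, hP.xreg⟩).symm
      rw [this]
      exact Subtype.coe_prop _
    have hord : ∀ P : Place k F, 0 < P.ord z → P.ord z ≤ (G.roots.count (c P) : ℤ) := by
      intro P hPz
      obtain ⟨h1, h2⟩ := QD3_poly P α (c P) (hunif P hPz) G hGne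
      rw [← h2]
      have h3 : P.Ge (P.ord z + 0) (z * ∑ i, aeval x (q i) * u i) :=
        (P.ge_ord z).mul (hreg P (hne P hPz))
      rw [← hGα, add_zero] at h3
      exact h3.le h1
    -- counting
    have hfin : (Function.support fun P : Place k F => P.ord z).Finite := h4 k F hFF z hz0
    set S : Finset (Place k F) := hfin.toFinset.filter fun P => 0 < P.ord z with hS
    have hsum : ∑ P ∈ S, P.ord z = (n : ℤ) := by
      have h1 := (hZ k F hFF z hTz).1
      rw [hz, QD3_deg, ← hz, hdeg] at h1
      rw [← h1, finsum_eq_sum_of_support_subset (s := S)]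
      · refine Finset.sum_congr rfl fun P hP' => ?_
        have := (Finset.mem_filter.mp hP').2
        rw [max_eq_left this.le]
      · intro P hP'
        have hP'' : max (P.ord z) 0 ≠ 0 := hP'
        have h2 : 0 < P.ord z := by
          by_contra h
          exact hP'' (max_eq_right (not_lt.mp h))
        rw [Finset.mem_coe, hS, Finset.mem_filter, Set.Finite.mem_toFinset]
        exact ⟨h2.ne', h2⟩
    have hmem : ∀ P ∈ S, 0 < P.ord z := fun P hP' => (Finset.mem_filter.mp hP').2
    have h5 : (n : ℤ) ≤ ∑ P ∈ S, (G.roots.count (c P) : ℤ) := by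
      rw [← hsum]
      exact Finset.sum_le_sum fun P hP' => hord P (hmem P hP')
    have h6 : ∑ P ∈ S, G.roots.count (c P) = ∑ r ∈ S.image c, G.roots.count r := by
      rw [Finset.sum_image]
      intro P hP' P' hP'' h
      exact hinj P P' (hmem P hP') (hmem P' hP'') h
    have h7 : ∑ P ∈ S, G.roots.count (c P) ≤ G.natDegree := by
      rw [h6]
      exact (QD3_count _ _).trans (Polynomial.card_roots' G)
    have h8 : (n : ℤ) ≤ ((∑ P ∈ S, G.roots.count (c P) : ℕ) : ℤ) := by
      push_cast
      exact h5
    omega
  -- the discriminant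
  have hVne : V.det ≠ 0 := by
    intro h
    rw [h, Polynomial.eval_zero] at hdet
    exact hdet rfl
  set K := k⟮x⟯ with hK
  let y : K := IntermediateField.AdjoinSimple.gen k x
  have hy : algebraMap K F y = x := IntermediateField.AdjoinSimple.algebraMap_gen k x
  have hay : ∀ p : Polynomial k, algebraMap K F (aeval y p) = aeval x p := by
    intro p
    rw [← Polynomial.aeval_algebraMap_apply, hy]
  set A : Matrix (Fin n) (Fin n) K := V.map (aeval y) with hA
  have hAdet : algebraMap K F A.det = aeval x V.det := by
    have h1 : A.det = aeval y V.det := by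
      have := RingHom.map_det (aeval y : Polynomial k →ₐ[k] K).toRingHom V
      exact this.symm
    rw [h1, hay]
  have hAne : A.det ≠ 0 := by
    intro h
    rw [h, map_zero] at hAdet
    exact hVne ((transcendental_iff.mp hT) _ hAdet.symm)
  have hAα : ∀ j : Fin n, α ^ (j : ℕ) = ∑ i, A i j • u i := by
    intro j
    rw [hVα j]
    refine Finset.sum_congr rfl fun i _ => ?_
    rw [Algebra.smul_def, hA, Matrix.map_apply, hay]
  refine ⟨V.det, hdet, ?_, ?_⟩
  · rw [Fintype.linearIndependent_iff]
    intro g hg
    have h1 : ∑ i, (A.mulVec g) i • u i = 0 := by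
      rw [← hg]
      have e : ∀ j, g j • α ^ (j : ℕ) = ∑ i, (A i j * g j) • u i := by
        intro j
        rw [hAα j, Finset.smul_sum]
        refine Finset.sum_congr rfl fun i _ => ?_
        rw [smul_smul, mul_comm]
      rw [Finset.sum_congr rfl fun j _ => e j, Finset.sum_comm]
      refine Finset.sum_congr rfl fun i _ => ?_
      rw [← Finset.sum_smul]
      rfl
    have h2 : A.mulVec g = 0 := by
      funext i
      exact (Fintype.linearIndependent_iff.mp hlin) _ h1 i
    have h3 := Matrix.eq_zero_of_mulVec_eq_zero hAne h2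
    intro j
    exact congrFun h3 j
  · have h1 := Algebra.discr_of_matrix_vecMul u A
    have h2 : Matrix.vecMul u (A.map (algebraMap K F)) = fun j : Fin n => α ^ (j : ℕ) := by
      funext j
      rw [hAα j]
      simp only [Matrix.vecMul, dotProduct, Matrix.map_apply]
      refine Finset.sum_congr rfl fun i _ => ?_
      rw [Algebra.smul_def, mul_comm]
    rw [h2] at h1
    rw [h1]
    change algebraMap K F (A.det ^ 2 * Algebra.discr K u) = _
    rw [map_mul, map_pow, hAdet, map_pow]
    rfl

end

end Pool.Agent.helper53.AU
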