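import Pool.Agent.helper75.AU.SpecW

/-!
# au:QW0: `T² - f` is irreducible over `k(X)` for a squarefree nonconstant polynomial `f`
-/

namespace Pool.Agent.helper53.AU

theorem QW0 : QW0_stmt := by
  intro k _ f hsq hdeg
  refine X_pow_sub_C_irreducible_of_prime Nat.prime_two ?_
  intro b hb
  obtain ⟨r, hr⟩ := IsIntegrallyClosed.exists_algebraMap_eq_of_isIntegral_pow
    (R := Polynomial k) (K := RatFunc k) (x := b) (n := 2) (by norm_num)
    (by rw [hb]; exact isIntegral_algebraMap)
  have h1 : r ^ 2 = f := by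
    apply IsFractionRing.injective (Polynomial k) (RatFunc k)
    rw [map_pow, hr, hb]
  have h2 : IsUnit r := hsq r ⟨1, by rw [mul_one, ← h1, sq]⟩
  have h3 : f.natDegree = 0 := by
    rw [← h1]
    exact Polynomial.natDegree_eq_zero_of_isUnit (h2.pow 2)
  omega

end Pool.Agent.helper53.AU
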